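import Pool.Agent.W92.ET.Base

set_option autoImplicit false

open MeasureTheory

namespace Pool.Agent.W696.ET

open Pool.Agent.W92.ET

noncomputable section

/-- the coefficients of `GG (1 - z) 0 + 3` -/
def Gc (k : ℕ) : ℝ :=
  if k = 0 then 7159 / 14400 + 667 / 9600 - 3761 / 9600 + 9 / 40 + 3
  else if k = 1 then 5 / 128
  else if k = 2 then -3761 / 9600 + 27 / 40
  else if k = 3 then -9 / 40
  else 0

theorem Gc_big (k : ℕ) (hk : 4 ≤ k) : Gc k = 0 := by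
  unfold Gc
  rw [if_neg (by omega), if_neg (by omega), if_neg (by omega), if_neg (by omega)]

theorem sum_Gc (K : ℕ) (hK : 3 ≤ K) (t : ℕ → ℝ) :
    ∑ k ∈ Finset.range (K + 1), Gc k * t k =
      Gc 0 * t 0 + Gc 1 * t 1 + Gc 2 * t 2 + Gc 3 * t 3 := by
  obtain ⟨m, rfl⟩ : ∃ m, K = 3 + m := ⟨K - 3, by omega⟩
  rw [show 3 + m + 1 = 4 + m by ring, Finset.sum_range_add]
  have : ∑ x ∈ Finset.range m, Gc (4 + x) * t (4 + x) = 0 := by
    refine Finset.sum_eq_zero fun x _ => ?_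
    rw [Gc_big _ (by omega), zero_mul]
  rw [this, add_zero]
  simp [Finset.sum_range_succ]

theorem GG_eq (z : ℝ) (K : ℕ) (hK : 3 ≤ K) :
    ∑ k ∈ Finset.range (K + 1), Gc k * z ^ k = GG (1 - z) 0 + 3 := by
  rw [sum_Gc K hK (fun k => z ^ k)]
  simp only [Gc, GG]
  norm_num
  ring

theorem cc0 : cc 0 = 1 := by simp [cc]
theorem cc1 : cc 1 = 1 / 2 := by
  simp [cc, Nat.centralBinom]; norm_num
theorem cc2 : cc 2 = 3 / 8 := by
  have : Nat.centralBinom 2 = 6 := by decide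
  simp [cc, this]; norm_num
theorem cc3 : cc 3 = 5 / 16 := by
  have : Nat.centralBinom 3 = 20 := by decide
  simp [cc, this]; norm_num

theorem cc_nonneg (k : ℕ) : 0 ≤ cc k := by unfold cc; positivity

theorem PP_nonneg (r : ℝ) (h0 : 0 ≤ r) (h1 : r ≤ 1) : 0 ≤ PP r := by
  have h2 : 0 ≤ 1 - r := by linarith
  have e : PP r = 19 / 60 * (1 - r) ^ 5 + (19 / 12 + 2023 / 300) * (r * (1 - r) ^ 4) +
      10 * (19 / 60 + 2 / 5 * (2023 / 300) - 1 / 10 * (6559 / 400)) * (r ^ 2 * (1 - r) ^ 3) +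
      10 * (19 / 60 + 3 / 5 * (2023 / 300) - 3 / 10 * (6559 / 400) + 1 / 10 * (157 / 10)) *
        (r ^ 3 * (1 - r) ^ 2) +
      5 * (19 / 60 + 4 / 5 * (2023 / 300) - 6 / 10 * (6559 / 400) + 4 / 10 * (157 / 10) -
        1 / 5 * (259 / 40)) * (r ^ 4 * (1 - r)) +
      (19 / 60 + 2023 / 300 - 6559 / 400 + 157 / 10 - 259 / 40 + 21 / 16) * r ^ 5 := by
    unfold PP
    ring
  rw [e]
  have a1 : 0 ≤ (1 - r) ^ 5 := by positivity
  have a2 : 0 ≤ r * (1 - r) ^ 4 := by positivity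
  have a3 : 0 ≤ r ^ 2 * (1 - r) ^ 3 := by positivity
  have a4 : 0 ≤ r ^ 3 * (1 - r) ^ 2 := by positivity
  have a5 : 0 ≤ r ^ 4 * (1 - r) := by positivity
  have a6 : 0 ≤ r ^ 5 := by positivity
  nlinarith

theorem hc_nonneg (k : ℕ) : 0 ≤ hc k := by
  unfold hc
  refine intervalIntegral.integral_nonneg (by norm_num) fun s hs => ?_
  have h1 : s ^ 2 ≤ 1 := by nlinarith [hs.1, hs.2]
  exact mul_nonneg (PP_nonneg _ (sq_nonneg s) h1) (by have := hs.1; positivity)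

theorem hc_eq (k : ℕ) : hc k = 19 / 60 / (2 * k + 1) + 2023 / 300 / (2 * k + 3) -
    6559 / 400 / (2 * k + 5) + 157 / 10 / (2 * k + 7) - 259 / 40 / (2 * k + 9) +
    21 / 16 / (2 * k + 11) := by
  unfold hc
  have e : ∀ s : ℝ, PP (s ^ 2) * s ^ (2 * k) = 19 / 60 * s ^ (2 * k) +
      2023 / 300 * s ^ (2 * k + 2) - 6559 / 400 * s ^ (2 * k + 4) + 157 / 10 * s ^ (2 * k + 6) -
      259 / 40 * s ^ (2 * k + 8) + 21 / 16 * s ^ (2 * k + 10) := by
    intro s
    unfold PP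
    ring
  simp only [e]
  have hi : ∀ (c : ℝ) (m : ℕ), IntervalIntegrable (fun s : ℝ => c * s ^ m) volume 0 1 := by
    intro c m
    exact (by fun_prop : Continuous fun s : ℝ => c * s ^ m).intervalIntegrable _ _
  rw [intervalIntegral.integral_add (((((hi _ _).add (hi _ _)).sub (hi _ _)).add (hi _ _)).sub
      (hi _ _)) (hi _ _),
    intervalIntegral.integral_sub ((((hi _ _).add (hi _ _)).sub (hi _ _)).add (hi _ _)) (hi _ _),
    intervalIntegral.integral_add (((hi _ _).add (hi _ _)).sub (hi _ _)) (hi _ _),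
    intervalIntegral.integral_sub ((hi _ _).add (hi _ _)) (hi _ _),
    intervalIntegral.integral_add (hi _ _) (hi _ _)]
  simp only [intervalIntegral.integral_const_mul, integral_pow]
  push_cast
  ring

theorem bet_lb : 22 / 10 ≤ 2 * bet := by
  unfold bet
  have hpi : Real.pi < 3.15 := Real.pi_lt_d2
  have hp := Real.pi_pos
  rw [← mul_div_assoc, le_div_iff₀ hp]
  norm_num at hpi ⊢
  linarith

/-- the coefficients `f k` -/
def fc (k : ℕ) : ℝ := 2 * bet * hc k - Gc k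

theorem fc_nonneg (k : ℕ) (hk : 1 ≤ k) : 0 ≤ fc k := by
  have hb := bet_lb
  have hb0 : 0 ≤ 2 * bet := by linarith
  unfold fc
  rcases Nat.lt_or_ge k 4 with h | h
  · interval_cases k
    · have h1 : 2 / 10 ≤ hc 1 := by rw [hc_eq]; norm_num
      have h2 : Gc 1 = 5 / 128 := by simp [Gc]
      rw [h2]
      nlinarith
    · have h1 : 2 / 10 ≤ hc 2 := by rw [hc_eq]; norm_num
      have h2 : Gc 2 = -3761 / 9600 + 27 / 40 := by simp [Gc]
      rw [h2]
      nlinarith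
    · have h1 := hc_nonneg 3
      have h2 : Gc 3 = -9 / 40 := by simp [Gc]
      rw [h2]
      nlinarith
  · rw [Gc_big k h, sub_zero]
    exact mul_nonneg hb0 (hc_nonneg k)

theorem sum_pairs (A : Finset ℕ) (F : ℕ → ℕ → ℝ) (hF : ∀ a b, F a b = F b a) :
    ∑ a ∈ A, ∑ b ∈ A, F a b = ∑ a ∈ A, F a a + 2 * ∑ x ∈ Pr A, F x.1 x.2 := by
  have h1 : ∑ x ∈ Pr A, F x.1 x.2 = ∑ a ∈ A, ∑ b ∈ A, if a < b then F a b else 0 := by
    unfold Pr
    rw [Finset.sum_filter, Finset.sum_product]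
  have h2 : ∑ a ∈ A, ∑ b ∈ A, (if b < a then F a b else 0) =
      ∑ a ∈ A, ∑ b ∈ A, if a < b then F a b else 0 := by
    rw [Finset.sum_comm]
    refine Finset.sum_congr rfl fun a _ => Finset.sum_congr rfl fun b _ => ?_
    by_cases h : a < b
    · rw [if_pos h, if_pos h, hF]
    · rw [if_neg h, if_neg h]
  have h3 : ∑ a ∈ A, F a a = ∑ a ∈ A, ∑ b ∈ A, if a = b then F a b else 0 := by
    refine Finset.sum_congr rfl fun a ha => ?_
    rw [Finset.sum_ite_eq, if_pos ha]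
  rw [h1, two_mul, h3]
  nth_rewrite 2 [← h2]
  simp only [← Finset.sum_add_distrib]
  refine Finset.sum_congr rfl fun a _ => Finset.sum_congr rfl fun b _ => ?_
  rcases lt_trichotomy a b with h | h | h
  · rw [if_neg (by omega), if_pos h, if_neg (by omega)]; ring
  · subst h; simp
  · rw [if_neg (by omega), if_neg (by omega), if_pos h]; ring

/-- the ladder for pairs -/
theorem ladder_pairs (h3 : S_ladder) (A : Finset ℕ) (hA : ∀ a ∈ A, 0 < a) (k : ℕ) :
    cc k * RR A - (1 / 4) * ∑ a ∈ A, 1 / (a : ℝ) ≤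
      ∑ x ∈ Pr A, 1 / ((x.1 : ℝ) + x.2) * (4 * x.1 * x.2 / ((x.1 : ℝ) + x.2) ^ 2) ^ k := by
  have h := h3 A hA k
  rw [sum_pairs A (fun a b => 1 / ((a : ℝ) + b) * ((4 * a * b / ((a : ℝ) + b) ^ 2) ^ k - cc k))
    (by intro a b; ring_nf)] at h
  have hd : ∑ a ∈ A, (1 / ((a : ℝ) + a) * ((4 * a * a / ((a : ℝ) + a) ^ 2) ^ k - cc k)) ≤
      (1 / 2) * ∑ a ∈ A, 1 / (a : ℝ) := by
    rw [Finset.mul_sum]
    refine Finset.sum_le_sum fun a ha => ?_
    have hpos : (0 : ℝ) < a := by exact_mod_cast hA a ha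
    have e1 : 4 * (a : ℝ) * a / ((a : ℝ) + a) ^ 2 = 1 := by
      field_simp
      ring
    have e2 : 1 / ((a : ℝ) + a) = (1 / 2) * (1 / (a : ℝ)) := by
      field_simp
      ring
    rw [e1, one_pow, e2]
    have hcc := cc_nonneg k
    have : 0 ≤ (1 / 2) * (1 / (a : ℝ)) := by positivity
    nlinarith
  have hs : ∑ x ∈ Pr A, 1 / ((x.1 : ℝ) + x.2) *
      ((4 * x.1 * x.2 / ((x.1 : ℝ) + x.2) ^ 2) ^ k - cc k) =
      ∑ x ∈ Pr A, 1 / ((x.1 : ℝ) + x.2) * (4 * x.1 * x.2 / ((x.1 : ℝ) + x.2) ^ 2) ^ k -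
      cc k * RR A := by
    unfold RR
    rw [Finset.mul_sum, ← Finset.sum_sub_distrib]
    refine Finset.sum_congr rfl fun x _ => ?_
    ring
  rw [hs] at h
  linarith

theorem pair_bound (h1 : S_HHlb) (K : ℕ) (hK : 3 ≤ K) (a b : ℕ) (ha : 0 < a) (hab : a < b) :
    1 / ((a : ℝ) + b) * ∑ k ∈ Finset.range (K + 1),
      fc k * (4 * a * b / ((a : ℝ) + b) ^ 2) ^ k ≤
    2 * bet * (1 / ((b : ℝ) - a) * HH (((a : ℝ) + b) / (b - a))) -
      1 / ((a : ℝ) + b) * (GG ((((b : ℝ) - a) / (a + b)) ^ 2) 0 + 3) := by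
  have hpa : (0 : ℝ) < a := by exact_mod_cast ha
  have hpb : (a : ℝ) < b := by exact_mod_cast hab
  have hd : (0 : ℝ) < (b : ℝ) - a := by linarith
  have hn : (0 : ℝ) < (a : ℝ) + b := by linarith
  have hy : 1 < ((a : ℝ) + b) / (b - a) := by
    rw [lt_div_iff₀ hd]
    linarith
  set z : ℝ := 4 * a * b / ((a : ℝ) + b) ^ 2 with hz
  have ez : 1 - 1 / (((a : ℝ) + b) / (b - a)) ^ 2 = z := by
    rw [hz]
    have := hd.ne'
    field_simp
    ring
  have ew : (((b : ℝ) - a) / (a + b)) ^ 2 = 1 - z := by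
    rw [hz]
    field_simp
    ring
  have hH := h1 _ hy K
  rw [ez] at hH
  have hb0 : 0 ≤ 2 * bet := by linarith [bet_lb]
  have e1 : 1 / ((b : ℝ) - a) * HH (((a : ℝ) + b) / (b - a)) =
      1 / ((a : ℝ) + b) * (((a : ℝ) + b) / (b - a) * HH (((a : ℝ) + b) / (b - a))) := by
    have := hd.ne'
    field_simp
  rw [ew, e1, ← GG_eq z K hK]
  have e2 : ∑ k ∈ Finset.range (K + 1), fc k * z ^ k =
      2 * bet * (∑ k ∈ Finset.range (K + 1), hc k * z ^ k) -
      ∑ k ∈ Finset.range (K + 1), Gc k * z ^ k := by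
    rw [Finset.mul_sum, ← Finset.sum_sub_distrib]
    refine Finset.sum_congr rfl fun k _ => ?_
    unfold fc
    ring
  rw [e2]
  have hi : 0 ≤ 1 / ((a : ℝ) + b) := by positivity
  have : 1 / ((a : ℝ) + b) * (2 * bet * (∑ k ∈ Finset.range (K + 1), hc k * z ^ k)) ≤
      1 / ((a : ℝ) + b) * (2 * bet * (((a : ℝ) + b) / (b - a) *
        HH (((a : ℝ) + b) / (b - a)))) :=
    mul_le_mul_of_nonneg_left (mul_le_mul_of_nonneg_left hH hb0) hi
  nlinarith

theorem first (h1 : S_HHlb) (h2 : S_lim) (h3 : S_ladder) : S_first := by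
  have hlim : Filter.Tendsto (fun K : ℕ => ∑ k ∈ Finset.range (K + 1), hc k * cc k)
    Filter.atTop (nhds (Real.pi * (306589 / 614400))) := h2
  have hgt : (3.4602 : ℝ) / (2 * bet) < Real.pi * (306589 / 614400) := by
    unfold bet
    have hp := Real.pi_pos
    rw [div_lt_iff₀ (by positivity)]
    have : Real.pi * (306589 / 614400) * (2 * (34675 / 10000 / Real.pi)) =
        306589 / 614400 * (2 * (34675 / 10000)) := by
      field_simp
    rw [this]
    norm_num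
  have hev := hlim.eventually (lt_mem_nhds hgt)
  obtain ⟨K, hK, hK3⟩ := (hev.and (Filter.eventually_ge_atTop 3)).exists
  have hb := bet_lb
  have hb0 : 0 < 2 * bet := by linarith
  have hg : 0 < ∑ k ∈ Finset.range (K + 1), fc k * cc k := by
    have e : ∑ k ∈ Finset.range (K + 1), fc k * cc k =
        2 * bet * (∑ k ∈ Finset.range (K + 1), hc k * cc k) -
        ∑ k ∈ Finset.range (K + 1), Gc k * cc k := by
      rw [Finset.mul_sum, ← Finset.sum_sub_distrib]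
      refine Finset.sum_congr rfl fun k _ => ?_
      unfold fc
      ring
    rw [e, sum_Gc K hK3 cc, cc0, cc1, cc2, cc3]
    rw [div_lt_iff₀ hb0] at hK
    have : Gc 0 * 1 + Gc 1 * (1 / 2) + Gc 2 * (3 / 8) + Gc 3 * (5 / 16) < 3.4602 := by
      simp only [Gc]
      norm_num
    linarith
  refine ⟨∑ k ∈ Finset.range (K + 1), fc k * cc k,
    ∑ k ∈ Finset.range (K + 1), (if k = 0 then 0 else fc k / 4), hg, ?_⟩
  intro A hA
  have step1 : ∑ x ∈ Pr A, (1 / ((x.1 : ℝ) + x.2) * ∑ k ∈ Finset.range (K + 1),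
      fc k * (4 * x.1 * x.2 / ((x.1 : ℝ) + x.2) ^ 2) ^ k) ≤
      2 * bet * ∑ x ∈ Pr A, 1 / ((x.2 : ℝ) - x.1) * HH (((x.1 : ℝ) + x.2) / (x.2 - x.1))
    - ∑ x ∈ Pr A, 1 / ((x.1 : ℝ) + x.2) *
      (GG ((((x.2 : ℝ) - x.1) / (x.1 + x.2)) ^ 2) 0 + 3) := by
    rw [Finset.mul_sum, ← Finset.sum_sub_distrib]
    refine Finset.sum_le_sum fun x hx => ?_
    have hx' : (x.1 ∈ A ∧ x.2 ∈ A) ∧ x.1 < x.2 := by
      simpa [Pr] using hx
    exact pair_bound h1 K hK3 x.1 x.2 (hA _ hx'.1.1) hx'.2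
  refine le_trans ?_ step1
  have e : ∑ x ∈ Pr A, (1 / ((x.1 : ℝ) + x.2) * ∑ k ∈ Finset.range (K + 1),
      fc k * (4 * x.1 * x.2 / ((x.1 : ℝ) + x.2) ^ 2) ^ k) =
      ∑ k ∈ Finset.range (K + 1), fc k * ∑ x ∈ Pr A, 1 / ((x.1 : ℝ) + x.2) *
        (4 * x.1 * x.2 / ((x.1 : ℝ) + x.2) ^ 2) ^ k := by
    simp only [Finset.mul_sum]
    rw [Finset.sum_comm]
    refine Finset.sum_congr rfl fun k _ => Finset.sum_congr rfl fun x _ => ?_
    ring
  rw [e, Finset.sum_mul, Finset.sum_mul, ← Finset.sum_sub_distrib]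
  refine Finset.sum_le_sum fun k _ => ?_
  by_cases hk : k = 0
  · subst hk
    rw [if_pos rfl, zero_mul, sub_zero, cc0, mul_one]
    refine le_of_eq ?_
    unfold RR
    simp
  · rw [if_neg hk]
    have hf := fc_nonneg k (by omega)
    have hl := mul_le_mul_of_nonneg_left (ladder_pairs h3 A hA k) hf
    refine le_trans (le_of_eq ?_) hl
    ring

end

end Pool.Agent.W696.ET
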